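import Pool.Agent.Y86.CE.Gapg1

/-!
Project CE: the spectral gap on `F ^ 2 ⋊ SL_2(F)`.
-/

set_option autoImplicit false
set_option linter.unusedSectionVars false

open Polynomial Matrix

namespace Pool.Agent.Y86.CE

open Pool.Agent.Y171.CE hiding sq

section meas

variable {F : Type} [Field F] [Fintype F] [DecidableEq F]

theorem fib (hM : S_MASS) (L : AddSubgroup (Fin 2 → F)) (l : List (SL2 F)) (M : SL2 F) :
    ∑ v : Fin 2 → F, mL L l ⟨v, M⟩ = if M = l.prod then 1 else 0 := by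
  have h0 : ∀ M : SL2 F, M ≠ l.prod → ∑ v : Fin 2 → F, mL L l ⟨v, M⟩ = 0 := by
    intro M hM'
    refine Finset.sum_eq_zero fun v _ => ?_
    unfold mL
    exact if_neg fun h => hM' h.1
  split_ifs with h
  · have h1 := (hM F L).2.1 l
    rw [sum_gp, Finset.sum_eq_single l.prod (fun M _ hM' => h0 M hM')
      (fun h => absurd (Finset.mem_univ _) h)] at h1
    rw [h, h1]
  · exact h0 M h

theorem fib_mu0 (hM : S_MASS) {p : ℕ} [NeZero p] [Algebra (ZMod p) F]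
    (L : AddSubgroup (Fin 2 → F)) (x : F) (M : SL2 F) :
    ∑ v : Fin 2 → F, mu0 (p := p) L x ⟨v, M⟩ = muQ (p := p) x M := by
  unfold mu0 mix muQ
  rw [Finset.sum_comm]
  refine Finset.sum_congr rfl fun N _ => ?_
  rw [← Finset.mul_sum, fib hM, List.prod_singleton]
  by_cases h : st x N = M
  · rw [if_pos h, if_pos h.symm, mul_one]
  · rw [if_neg h, if_neg (Ne.symm h), mul_zero]

open Classical in
theorem mL_one (L : AddSubgroup (Fin 2 → F)) (l : List (SL2 F)) :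
    mL L l 1 = if l.prod = 1 then 1 / (Nat.card (US L l) : ℝ) else 0 := by
  unfold mL
  by_cases h : l.prod = 1
  · rw [if_pos h, if_pos ⟨by rw [h]; rfl, (US L l).zero_mem⟩]
  · rw [if_neg h, if_neg fun h' => h h'.1.symm]

/-- the return probability -/
theorem ret (hPW : S_POW) (hR : S_RET0) {p : ℕ} [hp : Fact p.Prime] {k : ℕ}
    [Algebra (ZMod p) F] {x : F} (hx : Good p k F x) (L : AddSubgroup (Fin 2 → F))
    (hL : lampL (p := p) x 1 1 ≤ L) (c : ℕ) (hc : 1 ≤ c) (hck : c ≤ k) (hk : 1 ≤ 4 * k) :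
    cpow (mu0 (p := p) L x) (4 * k) 1 ≤ (1 / (p : ℝ) ^ 2) ^ (4 * k) *
      (17 * (4 * k + 1) * 256 ^ (2 * k) * p ^ 3 * p ^ (8 * k) / ((p : ℝ) ^ (3 * k) * (p : ℝ) ^ c)
      + (p : ℝ) ^ (4 * c) * ((4 * p) ^ (2 * k)) ^ 2) := by
  classical
  have h1 := congrFun (hPW F L (NilT p) (fun N : NilT p => st x N) (fun _ => 1 / (p : ℝ) ^ 2)
    (4 * k) hk) 1
  have h2 : cpow (mu0 (p := p) L x) (4 * k) 1 = (1 / (p : ℝ) ^ 2) ^ (4 * k) *
      ∑ h : Fin (4 * k) → NilT p, (if pw x (List.ofFn h) = 1 then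
      1 / (Nat.card (US L ((List.ofFn h).map (st x))) : ℝ) else 0) := by
    refine h1.trans ?_
    rw [Finset.mul_sum]
    refine Finset.sum_congr rfl fun h _ => ?_
    rw [Finset.prod_const, Finset.card_univ, Fintype.card_fin, mL_one]
    have h3 : List.ofFn (fun i => st x (h i)) = (List.ofFn h).map (st x) := by
      rw [List.map_ofFn]
      rfl
    rw [h3]
    rfl
  rw [h2]
  refine mul_le_mul_of_nonneg_left ?_ (by positivity)
  exact hR p k F x hx L hL c hc hck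

end meas

theorem n1 (p c : ℕ) (hp : 2 ^ 1000 ≤ p) (hc : 4 ≤ c) :
    68 * (32 * c + 1) * 2 ^ (160 * c) * p ^ 3 ≤ p ^ c := by
  have h1 : 2 ^ (1000 * (c - 3)) ≤ p ^ (c - 3) := by
    rw [pow_mul]
    exact Nat.pow_le_pow_left hp _
  have h2 : c < 2 ^ c := Nat.lt_two_pow_self
  have h3 : 68 * (32 * c + 1) ≤ 2 ^ (c + 12) := by
    have h4 : 2 ^ (c + 12) = 128 * (32 * 2 ^ c) := by ring
    rw [h4]
    exact Nat.mul_le_mul (by norm_num) (by omega)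
  have h5 : 68 * (32 * c + 1) * 2 ^ (160 * c) ≤ p ^ (c - 3) := by
    calc 68 * (32 * c + 1) * 2 ^ (160 * c) ≤ 2 ^ (c + 12) * 2 ^ (160 * c) :=
          Nat.mul_le_mul_right _ h3
      _ = 2 ^ (c + 12 + 160 * c) := by rw [← pow_add]
      _ ≤ 2 ^ (1000 * (c - 3)) := Nat.pow_le_pow_right (by norm_num) (by omega)
      _ ≤ p ^ (c - 3) := h1
  calc 68 * (32 * c + 1) * 2 ^ (160 * c) * p ^ 3 ≤ p ^ (c - 3) * p ^ 3 :=
        Nat.mul_le_mul_right _ h5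
    _ = p ^ c := by rw [← pow_add]; congr 1; omega

theorem n2 (p c : ℕ) (hp : 2 ^ 1000 ≤ p) (hc : 4 ≤ c) : 4 * 2 ^ (96 * c) ≤ p ^ c := by
  calc 4 * 2 ^ (96 * c) = 2 ^ (2 + 96 * c) := by rw [pow_add]; norm_num
    _ ≤ 2 ^ (1000 * c) := Nat.pow_le_pow_right (by norm_num) (by omega)
    _ = (2 ^ 1000) ^ c := by rw [pow_mul]
    _ ≤ p ^ c := Nat.pow_le_pow_left hp _

theorem fin_num (p c : ℕ) (hp : 2 ^ 1000 ≤ p) (hc : 4 ≤ c) (X Y D Gc cp : ℝ) (hX : 0 ≤ X)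
    (hY : 0 ≤ Y) (hD : ((p : ℝ) ^ c) ^ 16 / 2 ≤ D) (hG0 : 0 ≤ Gc)
    (hG : Gc ≤ ((p : ℝ) ^ c) ^ 40)
    (hcp : cp ≤ 17 * (32 * c + 1) * ((2 : ℝ) ^ c) ^ 128 * p ^ 3 / ((p : ℝ) ^ c) ^ 25 +
      ((2 : ℝ) ^ c) ^ 64 / ((p : ℝ) ^ c) ^ 28)
    (h : X ^ (16 * c) * D ≤ Gc * cp * Y ^ (16 * c)) : X ≤ (1 / 2) ^ 2 * Y := by
  have hp0 : (0 : ℝ) < p := by
    have h0 : 0 < p := lt_of_lt_of_le (by positivity) hp
    exact_mod_cast h0
  obtain ⟨a, ha⟩ : ∃ a : ℝ, a = (p : ℝ) ^ c := ⟨_, rfl⟩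
  obtain ⟨t, ht⟩ : ∃ t : ℝ, t = (2 : ℝ) ^ c := ⟨_, rfl⟩
  have ha0 : 0 < a := by rw [ha]; positivity
  have ht0 : 0 < t := by rw [ht]; positivity
  have e1 : 68 * (32 * (c : ℝ) + 1) * t ^ 160 * (p : ℝ) ^ 3 ≤ a := by
    have h1 := n1 p c hp hc
    have h2 : (68 * (32 * (c : ℝ) + 1) * 2 ^ (160 * c) * (p : ℝ) ^ 3) ≤ (p : ℝ) ^ c := by
      exact_mod_cast h1
    rw [ha, ht, ← pow_mul, mul_comm c 160]
    exact h2
  have e2 : 4 * t ^ 96 ≤ a := by
    have h1 := n2 p c hp hc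
    have h2 : (4 * 2 ^ (96 * c) : ℝ) ≤ (p : ℝ) ^ c := by exact_mod_cast h1
    rw [ha, ht, ← pow_mul, mul_comm c 96]
    exact h2
  have ht1 : 1 ≤ t := by rw [ht]; exact one_le_pow₀ (by norm_num)
  have ha1 : 1 ≤ a := by
    have h1 : (1 : ℝ) ≤ t ^ 96 := one_le_pow₀ ht1
    linarith
  rw [← ha] at hD hG hcp
  rw [← ht] at hcp
  have hc0 : (0 : ℝ) ≤ c := Nat.cast_nonneg _
  -- the product of the bounds
  have e3 : Gc * cp ≤ 17 * (32 * (c : ℝ) + 1) * t ^ 128 * (p : ℝ) ^ 3 * a ^ 15 +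
      t ^ 64 * a ^ 12 := by
    have hB : 0 ≤ 17 * (32 * (c : ℝ) + 1) * t ^ 128 * (p : ℝ) ^ 3 / a ^ 25 +
      t ^ 64 / a ^ 28 := by positivity
    calc Gc * cp ≤ Gc * (17 * (32 * (c : ℝ) + 1) * t ^ 128 * (p : ℝ) ^ 3 / a ^ 25 +
          t ^ 64 / a ^ 28) := mul_le_mul_of_nonneg_left hcp hG0
      _ ≤ a ^ 40 * (17 * (32 * (c : ℝ) + 1) * t ^ 128 * (p : ℝ) ^ 3 / a ^ 25 +
          t ^ 64 / a ^ 28) := mul_le_mul_of_nonneg_right hG hB
      _ = 17 * (32 * (c : ℝ) + 1) * t ^ 128 * (p : ℝ) ^ 3 * a ^ 15 + t ^ 64 * a ^ 12 := by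
        field_simp
  have e4 : t ^ 32 * (Gc * cp) ≤ a ^ 16 / 2 := by
    have h1 : t ^ 32 * (Gc * cp) ≤ t ^ 32 * (17 * (32 * (c : ℝ) + 1) * t ^ 128 * (p : ℝ) ^ 3 *
        a ^ 15 + t ^ 64 * a ^ 12) := mul_le_mul_of_nonneg_left e3 (by positivity)
    have h2 : t ^ 32 * (17 * (32 * (c : ℝ) + 1) * t ^ 128 * (p : ℝ) ^ 3 *
        a ^ 15 + t ^ 64 * a ^ 12) = (68 * (32 * (c : ℝ) + 1) * t ^ 160 * (p : ℝ) ^ 3) *
        (a ^ 15 / 4) + (4 * t ^ 96) * (a ^ 12 / 4) := by ring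
    have h3 : (68 * (32 * (c : ℝ) + 1) * t ^ 160 * (p : ℝ) ^ 3) * (a ^ 15 / 4) ≤
        a * (a ^ 15 / 4) := mul_le_mul_of_nonneg_right e1 (by positivity)
    have h4 : (4 * t ^ 96) * (a ^ 12 / 4) ≤ a * (a ^ 12 / 4) :=
      mul_le_mul_of_nonneg_right e2 (by positivity)
    have h5 : a * (a ^ 12 / 4) ≤ a ^ 16 / 4 := by
      have h6 : a ^ 13 ≤ a ^ 16 := pow_le_pow_right₀ ha1 (by norm_num)
      have h7 : a * (a ^ 12 / 4) = a ^ 13 / 4 := by ring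
      rw [h7]
      linarith
    have h8 : a * (a ^ 15 / 4) = a ^ 16 / 4 := by ring
    rw [h2] at h1
    linarith
  have e5 : (4 * X) ^ (16 * c) = t ^ 32 * X ^ (16 * c) := by
    rw [mul_pow, ht, ← pow_mul]
    congr 1
    rw [show (4 : ℝ) = 2 ^ 2 by norm_num, ← pow_mul]
    congr 1
    ring
  have e6 : (4 * X) ^ (16 * c) ≤ Y ^ (16 * c) := by
    have hX16 : 0 ≤ X ^ (16 * c) := by positivity
    have hY16 : 0 ≤ Y ^ (16 * c) := by positivity
    have h1 : (a ^ 16 / 2) * (4 * X) ^ (16 * c) ≤ (a ^ 16 / 2) * Y ^ (16 * c) := by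
      rw [e5]
      calc (a ^ 16 / 2) * (t ^ 32 * X ^ (16 * c)) = t ^ 32 * (X ^ (16 * c) * (a ^ 16 / 2)) := by
            ring
        _ ≤ t ^ 32 * (X ^ (16 * c) * D) :=
            mul_le_mul_of_nonneg_left (mul_le_mul_of_nonneg_left hD hX16) (by positivity)
        _ ≤ t ^ 32 * (Gc * cp * Y ^ (16 * c)) :=
            mul_le_mul_of_nonneg_left h (by positivity)
        _ = (t ^ 32 * (Gc * cp)) * Y ^ (16 * c) := by ring
        _ ≤ (a ^ 16 / 2) * Y ^ (16 * c) := mul_le_mul_of_nonneg_right e4 hY16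
    exact le_of_mul_le_mul_left h1 (by positivity)
  have e7 : 4 * X ≤ Y :=
    (pow_le_pow_iff_left₀ (by positivity) hY (by omega : 16 * c ≠ 0)).1 e6
  linarith

theorem gapg : S_NIL → S_SYM → S_MASS → S_POW → S_RET0 → S_CSL → S_SPEC → S_DIMN → S_GAPQ →
    S_GAPG := by
  intro _ hSY hM hPW hR hC hS hDN hGQ p hp hp2
  obtain ⟨k0, hk0⟩ := hGQ p hp2
  refine ⟨max k0 32, fun k hk h8 F _ _ _ _ x hx L hL f hf => ?_⟩
  obtain ⟨c, rfl⟩ := h8
  have hk0' : k0 ≤ 8 * c := (le_max_left _ _).trans hk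
  have hk32 : 32 ≤ 8 * c := (le_max_right _ _).trans hk
  have hc4 : 4 ≤ c := by omega
  refine gap_of (mu0 (p := p) L x) (muQ (p := p) x) (fib_mu0 hM L x) ((1 / 2) ^ 2) ?_ ?_ f hf
  · intro A hA
    have h1 := hk0 (8 * c) hk0' (by omega) F x hx A hA
    have h2 : ((1 : ℝ) / 2) ^ 600 ≤ (1 / 2) ^ 2 :=
      pow_le_pow_of_le_one (by norm_num) (by norm_num) (by norm_num)
    exact h1.trans (mul_le_mul_of_nonneg_right h2 (sq_nonneg' A))
  · intro b hb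
    have h1 := hS (Gp F) (mu0 (p := p) L x) (hSY p F L x).2.2.1 (VV F)
      (fun f hf => VV_T _ hf) (fun f hf g => VV_left hf g) (Fintype.card F ^ 2 - 1)
      (fun V' hV' hinv hne => hDN F V' hinv hne (fun f hf x => VV_one (hV' hf) x))
      (2 * (8 * c)) (by omega) b hb
    have e0 : 2 * (2 * (8 * c)) = 4 * (8 * c) := by ring
    have e0' : 2 * (8 * c) = 16 * c := by ring
    rw [e0, e0'] at h1
    have hret := ret hPW hR hx L hL c (by omega) (by omega) (by omega)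
    have hp0 : (0 : ℝ) < p := by exact_mod_cast hp.out.pos
    have hcard : (Fintype.card F : ℝ) = (p : ℝ) ^ (8 * c) := by
      rw [hx.card]
      push_cast
      rfl
    refine fin_num p c hp2 hc4 _ _ _ _ _ (sq_nonneg' _) (sq_nonneg' _) ?_ (Nat.cast_nonneg _) ?_ ?_ h1
    · -- dimension
      have h2 : 1 ≤ Fintype.card F ^ 2 := Nat.one_le_pow _ _ Fintype.card_pos
      rw [Nat.cast_sub h2]
      push_cast
      rw [hcard, ← pow_mul, ← pow_mul]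
      have h3 : 8 * c * 2 = c * 16 := by ring
      rw [h3]
      have h4 : (2 : ℝ) ≤ (p : ℝ) ^ (c * 16) := by
        have h5 : (2 : ℝ) ≤ p := by exact_mod_cast hp.out.two_le
        calc (2 : ℝ) ≤ p := h5
          _ = (p : ℝ) ^ 1 := (pow_one _).symm
          _ ≤ (p : ℝ) ^ (c * 16) := pow_le_pow_right₀ (by linarith) (by omega)
      linarith
    · -- order of the group
      have h2 := hC F
      have h3 : (Fintype.card (Gp F) : ℝ) ≤ (Fintype.card F : ℝ) ^ 5 := by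
        have h4 : Fintype.card (Gp F) ≤ Fintype.card F ^ 5 := by
          rw [h2.2.2]
          calc Fintype.card F ^ 2 * Fintype.card (SL2 F) ≤
                Fintype.card F ^ 2 * Fintype.card F ^ 3 := Nat.mul_le_mul_left _ h2.2.1
            _ = Fintype.card F ^ 5 := by ring
        exact_mod_cast h4
      refine h3.trans (le_of_eq ?_)
      rw [hcard, ← pow_mul, ← pow_mul]
      congr 1
      ring
    · refine hret.trans (le_of_eq ?_)
      obtain ⟨a, ha⟩ : ∃ a : ℝ, a = (p : ℝ) ^ c := ⟨_, rfl⟩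
      obtain ⟨t, ht⟩ : ∃ t : ℝ, t = (2 : ℝ) ^ c := ⟨_, rfl⟩
      have ha0 : 0 < a := by rw [ha]; positivity
      have f1 : (1 / (p : ℝ) ^ 2) ^ (4 * (8 * c)) = 1 / a ^ 64 := by
        rw [div_pow, one_pow, ha, ← pow_mul, ← pow_mul]
        congr 2
        ring
      have f2 : (256 : ℝ) ^ (2 * (8 * c)) = t ^ 128 := by
        rw [ht, show (256 : ℝ) = 2 ^ 8 by norm_num, ← pow_mul, ← pow_mul]
        congr 1
        ring
      have f3 : (p : ℝ) ^ (8 * (8 * c)) = a ^ 64 := by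
        rw [ha, ← pow_mul]
        congr 1
        ring
      have f4 : (p : ℝ) ^ (3 * (8 * c)) = a ^ 24 := by
        rw [ha, ← pow_mul]
        congr 1
        ring
      have f5 : (p : ℝ) ^ (4 * c) = a ^ 4 := by
        rw [ha, ← pow_mul]
        congr 1
        ring
      have f6 : ((4 * (p : ℝ)) ^ (2 * (8 * c))) ^ 2 = t ^ 64 * a ^ 32 := by
        rw [ha, ht, mul_pow, mul_pow, show (4 : ℝ) = 2 ^ 2 by norm_num, ← pow_mul, ← pow_mul,
          ← pow_mul, ← pow_mul, ← pow_mul]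
        congr 2 <;> ring
      rw [f1, f2, f3, f4, f5, f6, ← ha, ← ht]
      push_cast
      field_simp
      ring

end Pool.Agent.Y86.CE
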