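import Pool.Agent.Y171.CE.Stm

/-!
Project CE: the spectral gap on `F ^ 2 ⋊ SL_2(F)`: decomposition of the functions.
-/

set_option autoImplicit false

open Polynomial Matrix

namespace Pool.Agent.Y86.CE

open Pool.Agent.Y171.CE hiding sq

section

set_option linter.unusedSectionVars false

variable {F : Type} [Field F] [Fintype F] [DecidableEq F]

theorem sum_gp {E : Type} [AddCommMonoid E] (φ : Gp F → E) :
    ∑ g, φ g = ∑ M : SL2 F, ∑ v : Fin 2 → F, φ ⟨v, M⟩ := by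
  have h1 : ∑ z : (Fin 2 → F) × SL2 F, φ ((Gp.equiv F).symm z) = ∑ g, φ g :=
    Fintype.sum_equiv (Gp.equiv F).symm _ _ fun _ => rfl
  rw [← h1, Fintype.sum_prod_type_right]
  rfl

theorem act_inv_left (g : SL2 F) (v : Fin 2 → F) : act g⁻¹ (act g v) = v := by
  rw [← act_mul, inv_mul_cancel, act_one]

theorem act_inv_right (g : SL2 F) (v : Fin 2 → F) : act g (act g⁻¹ v) = v := by
  rw [← act_mul, mul_inv_cancel, act_one]

/-- the bijection `v ↦ w + g v` -/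
def shf (w : Fin 2 → F) (g : SL2 F) : (Fin 2 → F) ≃ (Fin 2 → F) where
  toFun v := w + act g v
  invFun v := act g⁻¹ (v - w)
  left_inv v := by
    show act g⁻¹ ((w + act g v) - w) = v
    rw [add_sub_cancel_left, act_inv_left]
  right_inv v := by
    show w + act g (act g⁻¹ (v - w)) = v
    rw [act_inv_right, add_sub_cancel]

theorem sum_shift_left (φ : Gp F → ℂ) (g : Gp F) (M : SL2 F) :
    ∑ v : Fin 2 → F, φ (g * ⟨v, M⟩) = ∑ v : Fin 2 → F, φ ⟨v, g.m * M⟩ :=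
  Fintype.sum_equiv (shf g.v g.m) _ _ fun _ => rfl

theorem sum_shift_right (φ : Gp F → ℂ) (s : Gp F) (M : SL2 F) :
    ∑ v : Fin 2 → F, φ (⟨v, M⟩ * s) = ∑ v : Fin 2 → F, φ ⟨v, M * s.m⟩ :=
  Fintype.sum_equiv (Equiv.addRight (act M s.v)) _ _ fun _ => rfl

variable (F) in
/-- functions with mean zero along the fibres -/
def VV : Submodule ℂ (Gp F → ℂ) where
  carrier := {b | ∀ M : SL2 F, ∑ v : Fin 2 → F, b ⟨v, M⟩ = 0}
  add_mem' := by
    intro a b ha hb M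
    have h1 : ∑ v : Fin 2 → F, (a + b) ⟨v, M⟩ =
        ∑ v : Fin 2 → F, a ⟨v, M⟩ + ∑ v : Fin 2 → F, b ⟨v, M⟩ := by
      rw [← Finset.sum_add_distrib]
      rfl
    rw [h1, ha M, hb M, add_zero]
  zero_mem' := fun M => Finset.sum_eq_zero fun _ _ => rfl
  smul_mem' := by
    intro c b hb M
    have h1 : ∑ v : Fin 2 → F, (c • b) ⟨v, M⟩ = c * ∑ v : Fin 2 → F, b ⟨v, M⟩ := by
      rw [Finset.mul_sum]
      rfl
    rw [h1, hb M, mul_zero]

theorem mem_VV {b : Gp F → ℂ} : b ∈ VV F ↔ ∀ M : SL2 F, ∑ v : Fin 2 → F, b ⟨v, M⟩ = 0 := Iff.rfl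

theorem VV_T (μ : Gp F → ℝ) {b : Gp F → ℂ} (hb : b ∈ VV F) : T μ b ∈ VV F := by
  intro M
  show ∑ v : Fin 2 → F, ∑ s : Gp F, (μ s : ℂ) * b (⟨v, M⟩ * s) = 0
  rw [Finset.sum_comm]
  refine Finset.sum_eq_zero fun s _ => ?_
  rw [← Finset.mul_sum, sum_shift_right, hb, mul_zero]

theorem VV_left {b : Gp F → ℂ} (hb : b ∈ VV F) (g : Gp F) : (fun x => b (g * x)) ∈ VV F := by
  intro M
  show ∑ v : Fin 2 → F, b (g * ⟨v, M⟩) = 0
  rw [sum_shift_left, hb]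

theorem VV_one {b : Gp F → ℂ} (hb : b ∈ VV F) (x : Gp F) :
    ∑ v : Fin 2 → F, b (⟨v, 1⟩ * x) = 0 := by
  rw [sum_shift_right, hb]

/-- the mean along the fibres -/
noncomputable def mn (f : Gp F → ℂ) (M : SL2 F) : ℂ :=
  (∑ v : Fin 2 → F, f ⟨v, M⟩) / (Fintype.card (Fin 2 → F) : ℂ)

theorem card_ne : (Fintype.card (Fin 2 → F) : ℂ) ≠ 0 := by
  exact_mod_cast Fintype.card_ne_zero

theorem sub_mn_mem (f : Gp F → ℂ) : (fun g => f g - mn f g.m) ∈ VV F := by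
  intro M
  show ∑ v : Fin 2 → F, (f ⟨v, M⟩ - mn f M) = 0
  rw [Finset.sum_sub_distrib, Finset.sum_const, Finset.card_univ, nsmul_eq_mul]
  unfold mn
  rw [mul_div_cancel₀ _ card_ne, sub_self]

theorem sum_mn (f : Gp F → ℂ) (hf : ∑ g, f g = 0) : ∑ M : SL2 F, mn f M = 0 := by
  unfold mn
  rw [← Finset.sum_div, ← sum_gp, hf, zero_div]

/-- orthogonality -/
theorem sq_add (A : SL2 F → ℂ) {b : Gp F → ℂ} (hb : b ∈ VV F) :
    Y171.CE.sq (fun g : Gp F => A g.m + b g) =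
      (Fintype.card (Fin 2 → F) : ℝ) * Y171.CE.sq A + Y171.CE.sq b := by
  unfold Y171.CE.sq
  rw [sum_gp (fun g : Gp F => ‖A g.m + b g‖ ^ 2), sum_gp (fun g : Gp F => ‖b g‖ ^ 2),
    Finset.mul_sum, ← Finset.sum_add_distrib]
  refine Finset.sum_congr rfl fun M _ => ?_
  have h1 : ∀ v : Fin 2 → F, ‖A M + b ⟨v, M⟩‖ ^ 2 =
      ‖A M‖ ^ 2 + ‖b ⟨v, M⟩‖ ^ 2 + 2 * (A M * (starRingEnd ℂ) (b ⟨v, M⟩)).re := by
    intro v
    rw [← Complex.normSq_eq_norm_sq, ← Complex.normSq_eq_norm_sq, ← Complex.normSq_eq_norm_sq,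
      Complex.normSq_add]
  show ∑ v : Fin 2 → F, ‖A M + b ⟨v, M⟩‖ ^ 2 =
    (Fintype.card (Fin 2 → F) : ℝ) * ‖A M‖ ^ 2 + ∑ v : Fin 2 → F, ‖b ⟨v, M⟩‖ ^ 2
  rw [Finset.sum_congr rfl fun v _ => h1 v, Finset.sum_add_distrib, Finset.sum_add_distrib,
    Finset.sum_const, Finset.card_univ, nsmul_eq_mul]
  have h2 : ∑ v : Fin 2 → F, 2 * (A M * (starRingEnd ℂ) (b ⟨v, M⟩)).re = 0 := by
    rw [← Finset.mul_sum, ← Complex.re_sum, ← Finset.mul_sum, ← map_sum, hb M, map_zero,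
      mul_zero, Complex.zero_re, mul_zero]
  rw [h2, add_zero]

/-- the walk on the functions of the second component -/
theorem T_mn (μ : Gp F → ℝ) (ν : SL2 F → ℝ) (hμν : ∀ M, ∑ v : Fin 2 → F, μ ⟨v, M⟩ = ν M)
    (A : SL2 F → ℂ) (g : Gp F) : T μ (fun g : Gp F => A g.m) g = T ν A g.m := by
  unfold T
  rw [sum_gp]
  refine Finset.sum_congr rfl fun M _ => ?_
  have h1 : ∀ v : Fin 2 → F, (μ ⟨v, M⟩ : ℂ) * A (g * ⟨v, M⟩ : Gp F).m =
      (μ ⟨v, M⟩ : ℂ) * A (g.m * M) := fun v => rfl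
  rw [Finset.sum_congr rfl fun v _ => h1 v, ← Finset.sum_mul, ← Complex.ofReal_sum, hμν]

theorem T_add (μ : Gp F → ℝ) (a b : Gp F → ℂ) (g : Gp F) :
    T μ (fun g => a g + b g) g = T μ a g + T μ b g := by
  unfold T
  rw [← Finset.sum_add_distrib]
  refine Finset.sum_congr rfl fun s _ => ?_
  ring

theorem sq_nonneg' {G : Type} [Fintype G] (f : G → ℂ) : 0 ≤ Y171.CE.sq f :=
  Finset.sum_nonneg fun _ _ => by positivity

/-- the gap of the walk from the gaps on the two parts -/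
theorem gap_of (μ : Gp F → ℝ) (ν : SL2 F → ℝ) (hμν : ∀ M, ∑ v : Fin 2 → F, μ ⟨v, M⟩ = ν M)
    (θ : ℝ) (h1 : ∀ A : SL2 F → ℂ, ∑ M, A M = 0 → Y171.CE.sq (T ν A) ≤ θ * Y171.CE.sq A)
    (h2 : ∀ b ∈ VV F, Y171.CE.sq (T μ b) ≤ θ * Y171.CE.sq b) (f : Gp F → ℂ) (hf : ∑ g, f g = 0) :
    Y171.CE.sq (T μ f) ≤ θ * Y171.CE.sq f := by
  set A := mn f with hA
  set b : Gp F → ℂ := fun g => f g - mn f g.m with hb
  have hbV : b ∈ VV F := sub_mn_mem f
  have e1 : f = fun g => A g.m + b g := by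
    funext g
    rw [hA, hb]
    ring
  have e2 : T μ f = fun g => T ν A g.m + T μ b g := by
    funext g
    conv_lhs => rw [e1]
    rw [T_add μ (fun g => A g.m) b g, T_mn μ ν hμν]
  have e3 : Y171.CE.sq f = (Fintype.card (Fin 2 → F) : ℝ) * Y171.CE.sq A + Y171.CE.sq b := by
    conv_lhs => rw [e1]
    exact sq_add A hbV
  have e4 : Y171.CE.sq (T μ f) = (Fintype.card (Fin 2 → F) : ℝ) * Y171.CE.sq (T ν A) + Y171.CE.sq (T μ b) := by
    rw [e2]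
    exact sq_add _ (VV_T μ hbV)
  rw [e3, e4]
  have h3 := mul_le_mul_of_nonneg_left (h1 A (sum_mn f hf))
    (show (0 : ℝ) ≤ (Fintype.card (Fin 2 → F) : ℝ) by positivity)
  have h4 := h2 b hbV
  linarith

end

end Pool.Agent.Y86.CE
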